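import Mathlib
import Pool.Agent.Helper28.H2.Cfg
import Pool.Agent.Helper94.H2.Nat
import Pool.Agent.Helper45.H2.NatP

/-!
# Project H2 (type 2): naturality in the shapes of `Pieces`
-/

set_option autoImplicit false

namespace Pool.Agent.Helper80.H2

open MvPolynomial Pool.Agent.Helper24.HN Pool.Agent.Helper24.H2
open Pool.Agent.Helper28.HN (I Un En cr aff cp ee)

section nat

variable {m : ℕ} {S S' : Type*} [CommRing S] [CommRing S'] (f : S →+* S') (c : Ix m → S)
  (x y x' y' ξ : I m → S) (u : Fin (m + 1) → S) (z : S) (k : Un m → S)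

theorem map_bf (r : Bi m) : f (bf c r x y) = bf (fun e => f (c e)) r (fun i => f (x i))
    (fun i => f (y i)) := Helper94.H2.map_bf f c r x y

theorem map_sf : f (sf c x x' y) = sf (fun e => f (c e)) (fun i => f (x i)) (fun i => f (x' i))
    (fun i => f (y i)) := Helper94.H2.map_sf f c x x' y

theorem map_tf : f (tf c x y y') = tf (fun e => f (c e)) (fun i => f (x i)) (fun i => f (y i))
    (fun i => f (y' i)) := Helper94.H2.map_tf f c x y y'

theorem map_lx (r : Fin m) : f (lx c r x y) = lx (fun e => f (c e)) r (fun i => f (x i))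
    (fun i => f (y i)) := Helper94.H2.map_lx f c r x y

theorem map_ly (r : Fin m) : f (ly c r x y) = ly (fun e => f (c e)) r (fun i => f (x i))
    (fun i => f (y i)) := Helper94.H2.map_ly f c r x y

theorem map_dl (r : Fin m) : f (dl c r x ξ y) = dl (fun e => f (c e)) r (fun i => f (x i))
    (fun i => f (ξ i)) (fun i => f (y i)) := Helper94.H2.map_dl f c r x ξ y

theorem map_aff (i : I m) : f (aff u i) = aff (fun i => f (u i)) i := congrFun (Helper94.H2.map_aff f u) i

theorem map_detM : f (Mx c x).det = (Mx (fun e => f (c e)) (fun i => f (x i))).det := by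
  rw [RingHom.map_det, Helper94.H2.map_Mx]

theorem map_detN : f (Nx c y).det = (Nx (fun e => f (c e)) (fun i => f (y i))).det := by
  rw [RingHom.map_det, Helper94.H2.map_Nx]

theorem map_Y0 (i : I m) : f (Y0 c x i) = Y0 (fun e => f (c e)) (fun i => f (x i)) i := congrFun (Helper94.H2.map_Y0 f c x) i

theorem map_Y1 (i : I m) : f (Y1 c x i) = Y1 (fun e => f (c e)) (fun i => f (x i)) i := congrFun (Helper94.H2.map_Y1 f c x) i

theorem map_yh (i : I m) : f (yh c x z i) = yh (fun e => f (c e)) (fun i => f (x i)) (f z) i := congrFun (Helper94.H2.map_yh f c x z) i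

theorem map_vh (i : Fin (m + 1)) : f (vh c y i) = vh (fun e => f (c e)) (fun i => f (y i)) i := congrFun (Helper94.H2.map_vh f c y) i

theorem map_xh (i : I m) : f (xh c y i) = xh (fun e => f (c e)) (fun i => f (y i)) i := congrFun (Helper94.H2.map_xh f c y) i

theorem map_nx (i : I m) : f (nx c x y i) = nx (fun e => f (c e)) (fun i => f (x i))
    (fun i => f (y i)) i := congrFun (Helper94.H2.map_nx f c x y) i

theorem map_ny (i : I m) : f (ny c x y i) = ny (fun e => f (c e)) (fun i => f (x i))
    (fun i => f (y i)) i := congrFun (Helper94.H2.map_ny f c x y) i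

theorem map_Fh : f (Fh c x z) = Fh (fun e => f (c e)) (fun i => f (x i)) (f z) := Helper94.H2.map_Fh f c x z

theorem map_Ah : f (Ah c x) = Ah (fun e => f (c e)) (fun i => f (x i)) := Helper94.H2.map_Ah f c x

theorem map_Bh : f (Bh c x) = Bh (fun e => f (c e)) (fun i => f (x i)) := Helper94.H2.map_Bh f c x

theorem map_Ch : f (Ch c x) = Ch (fun e => f (c e)) (fun i => f (x i)) := Helper94.H2.map_Ch f c x

theorem map_psh : f (psh c x z) = psh (fun e => f (c e)) (fun i => f (x i)) (f z) := Helper94.H2.map_psh f c x z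

theorem map_kah : f (kah c x z) = kah (fun e => f (c e)) (fun i => f (x i)) (f z) := Helper94.H2.map_kah f c x z

theorem map_th : f (th c x z) = th (fun e => f (c e)) (fun i => f (x i)) (f z) := Helper94.H2.map_th f c x z

theorem map_qh : f (qh c x ξ z) = qh (fun e => f (c e)) (fun i => f (x i)) (fun i => f (ξ i)) (f z) := Helper94.H2.map_qh f c x ξ z

theorem map_qa : f (qa c x ξ) = qa (fun e => f (c e)) (fun i => f (x i)) (fun i => f (ξ i)) := Helper94.H2.map_qa f c x ξ

theorem map_xz (i : I m) : f (xz c u z i) = xz (fun e => f (c e)) (fun i => f (u i)) (f z) i := congrFun (Helper94.H2.map_xz f c u z) i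

theorem map_psP : (psP c x).map f = psP (fun e => f (c e)) (fun i => f (x i)) := Helper94.H2.psP_map f c x

theorem map_Eqn (i : En m) : f (Eqn c k i) = Eqn (fun e => f (c e)) (fun a => f (k a)) i := Helper45.H2.map_Eqn f c k i

theorem map_Pp : f (Pp c k) = Pp (fun e => f (c e)) (fun a => f (k a)) := Helper45.H2.map_Pp f c k

theorem map_cr (A : Fin m → I m → S) (ζ : I m → S) (i : I m) :
    f (cr A ζ i) = cr (fun r j => f (A r j)) (fun j => f (ζ j)) i := by
  simp only [cr]
  rw [RingHom.map_det]
  congr 1
  ext a b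
  refine Fin.cases ?_ (fun a => Fin.cases ?_ (fun a => ?_) a) a
  · simp only [RingHom.mapMatrix_apply, Matrix.map_apply, Matrix.of_apply, Fin.cons_zero]
    exact congrFun (Helper94.H2.map_single f i) b
  · simp only [RingHom.mapMatrix_apply, Matrix.map_apply, Matrix.of_apply, Fin.cons_zero,
      Fin.cons_succ]
  · simp only [RingHom.mapMatrix_apply, Matrix.map_apply, Matrix.of_apply, Fin.cons_succ]

theorem map_rw' (r : Fin m) (i : I m) :
    f (rw' c y r i) = rw' (fun e => f (c e)) (fun i => f (y i)) r i := by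
  simp only [rw', Helper94.H2.map_ly, Helper94.H2.map_single]

theorem map_gG (p : I m × I m) : f (gG c y p) = gG (fun e => f (c e)) (fun i => f (y i)) p := by
  have h1 : ∀ j : I m, (fun i => f (cr (rw' c y) (Pi.single j 1) i)) =
      cr (rw' (fun e => f (c e)) (fun i => f (y i))) (Pi.single j 1) := by
    intro j
    funext i
    rw [map_cr, Helper94.H2.map_single]
    congr 1
    funext r i
    exact map_rw' f c y r i
  simp only [gG, map_mul, map_ofNat, Helper94.H2.map_sf, h1]

theorem map_ch' (y1 : I m → S) (N : ℕ) :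
    ((fun i => ((ch c x ξ y1 N).1 i).map f) = (ch (fun e => f (c e)) (fun i => f (x i))
      (fun i => f (ξ i)) (fun i => f (y1 i)) N).1) ∧
    ((fun i => ((ch c x ξ y1 N).2 i).map f) = (ch (fun e => f (c e)) (fun i => f (x i))
      (fun i => f (ξ i)) (fun i => f (y1 i)) N).2) := by
  have hC : (fun e => Polynomial.mapRingHom f (Polynomial.C (c e))) =
      (fun e => Polynomial.C (f (c e))) := by
    funext e
    exact Polynomial.map_C f
  induction N with
  | zero =>
    constructor
    · funext i
      simp only [ch, Polynomial.map_add, Polynomial.map_mul, Polynomial.map_C, Polynomial.map_X]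
    · funext i
      simp only [ch, Polynomial.map_C]
  | succ N ih =>
    obtain ⟨ih1, ih2⟩ := ih
    by_cases hN : N % 2 = 0
    · simp only [ch, if_pos hN]
      refine ⟨ih1, ?_⟩
      have h := Helper94.H2.map_ny (Polynomial.mapRingHom f) (fun e => Polynomial.C (c e))
        (ch c x ξ y1 N).1 (ch c x ξ y1 N).2
      rw [hC] at h
      simp only [Polynomial.coe_mapRingHom] at h
      rw [ih1, ih2] at h
      exact h
    · simp only [ch, if_neg hN]
      refine ⟨?_, ih2⟩
      have h := Helper94.H2.map_nx (Polynomial.mapRingHom f) (fun e => Polynomial.C (c e))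
        (ch c x ξ y1 N).1 (ch c x ξ y1 N).2
      rw [hC] at h
      simp only [Polynomial.coe_mapRingHom] at h
      rw [ih1, ih2] at h
      exact h

theorem map_ch (y1 : I m → S) (N : ℕ) (i : I m) :
    (((ch c x ξ y1 N).1 i).map f = (ch (fun e => f (c e)) (fun i => f (x i)) (fun i => f (ξ i))
      (fun i => f (y1 i)) N).1 i) ∧
    (((ch c x ξ y1 N).2 i).map f = (ch (fun e => f (c e)) (fun i => f (x i)) (fun i => f (ξ i))
      (fun i => f (y1 i)) N).2 i) :=
  ⟨congrFun (map_ch' f c x ξ y1 N).1 i, congrFun (map_ch' f c x ξ y1 N).2 i⟩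

end nat

end Pool.Agent.Helper80.H2
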